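import Mathlib

namespace Pool.Agent.Results.MP_8c22a7_lc.PolyGrowth

open Filter

/-- The strict genealogical (radix) order: shorter words first, words of equal length
lexicographically. -/
def RadixLt {A : Type} [LinearOrder A] (u v : List A) : Prop :=
  u.length < v.length ∨ (u.length = v.length ∧ List.Lex (· < ·) u v)

/-- The position (counted from 0) of `w` in the genealogical enumeration of `L`:
the number of words of `L` that come before `w`. -/
noncomputable def val {A : Type} [LinearOrder A] (L : Language A) (w : List A) : ℕ :=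
  Set.ncard {u : List A | u ∈ L ∧ RadixLt u w}

/-- The language of representations of the elements of `X`. -/
def rep {A : Type} [LinearOrder A] (L : Language A) (X : Set ℕ) : Language A :=
  {w | w ∈ L ∧ val L w ∈ X}

section radix
variable {A : Type} [LinearOrder A]

lemma RadixLt.le {u v : List A} (h : RadixLt u v) : u.length ≤ v.length := by
  rcases h with h | h <;> omega

lemma radix_irrefl (u : List A) : ¬ RadixLt u u := by
  rintro (h | h)
  · omega
  · exact lt_irrefl u ((List.lt_iff_lex_lt _ _).mp h.2)

lemma radix_trans {u v w : List A} (h1 : RadixLt u v) (h2 : RadixLt v w) : RadixLt u w := by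
  rcases h1 with h1 | h1 <;> rcases h2 with h2 | h2
  · left; omega
  · left; omega
  · left; omega
  · right
    have a1 : u < v := (List.lt_iff_lex_lt _ _).mp h1.2
    have a2 : v < w := (List.lt_iff_lex_lt _ _).mp h2.2
    have a3 : u < w := lt_trans a1 a2
    exact ⟨by omega, (List.lt_iff_lex_lt _ _).mpr a3⟩

lemma radix_tri (u v : List A) : RadixLt u v ∨ u = v ∨ RadixLt v u := by
  rcases lt_trichotomy u.length v.length with h | h | h
  · left; left; exact h
  · rcases lt_trichotomy u v with h' | h' | h'
    · left; right; exact ⟨h, (List.lt_iff_lex_lt _ _).mpr h'⟩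
    · right; left; exact h'
    · right; right; right; exact ⟨h.symm, (List.lt_iff_lex_lt _ _).mpr h'⟩
  · right; right; left; exact h

variable [Fintype A]

lemma below_fin (L : Language A) (w : List A) : {u : List A | u ∈ L ∧ RadixLt u w}.Finite :=
  (List.finite_length_le A w.length).subset fun _ hu => hu.2.le

lemma val_lt {L : Language A} {u w : List A} (hu : u ∈ L) (h : RadixLt u w) :
    val L u < val L w := by
  apply Set.ncard_lt_ncard _ (below_fin L w)
  refine ⟨fun z hz => ⟨hz.1, radix_trans hz.2 h⟩, fun hc => ?_⟩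
  exact radix_irrefl u (hc ⟨hu, h⟩).2

lemma val_inj {L : Language A} {u w : List A} (hu : u ∈ L) (hw : w ∈ L)
    (h : val L u = val L w) : u = w := by
  rcases radix_tri u w with h' | h' | h'
  · have := val_lt hu h'; omega
  · exact h'
  · have := val_lt hw h'; omega

lemma val_surj {L : Language A} (w : List A) {s : ℕ} (hs : s < val L w) :
    ∃ u ∈ L, u.length ≤ w.length ∧ val L u = s := by
  set S := {u : List A | u ∈ L ∧ RadixLt u w} with hS
  have hfin : S.Finite := below_fin L w
  have himg : (val L) '' S = Set.Iio (val L w) := by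
    apply Set.eq_of_subset_of_ncard_le
    · rintro _ ⟨u, hu, rfl⟩
      exact val_lt hu.1 hu.2
    · rw [Set.InjOn.ncard_image (fun a ha b hb h => val_inj ha.1 hb.1 h)]
      rw [Set.ncard_Iio_nat]
      rfl
    · exact Set.finite_Iio _
  have : s ∈ (val L) '' S := by rw [himg]; exact hs
  obtain ⟨u, hu, h⟩ := this
  exact ⟨u, hu.1, hu.2.le, h⟩

omit [Fintype A] in
lemma between (p : List A) : ∀ (s s' z : List A), ¬ List.Lex (· < ·) z (p ++ s) →
    List.Lex (· < ·) z (p ++ s') → z.length = (p ++ s).length → ∃ t, z = p ++ t := by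
  induction p with
  | nil => intro _ _ z _ _ _; exact ⟨z, rfl⟩
  | cons a p ih =>
    intro s s' z h1 h2 hl
    cases z with
    | nil => simp at hl
    | cons b z =>
      rw [List.cons_append] at h1 h2
      cases h2 with
      | rel h => exact absurd (List.Lex.rel h) h1
      | cons h =>
        obtain ⟨t, ht⟩ := ih s s' z (fun h' => h1 (List.Lex.cons h')) h (by simpa using hl)
        exact ⟨t, by rw [ht]; rfl⟩

lemma val_gap (L : Language A) (p s s' : List A) (hl : s.length = s'.length) :
    val L (p ++ s') ≤ val L (p ++ s) + Set.ncard {t : List A | t.length ≤ s.length} := by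
  have hsub : {u : List A | u ∈ L ∧ RadixLt u (p ++ s')} ⊆
      {u : List A | u ∈ L ∧ RadixLt u (p ++ s)} ∪
        (fun t => p ++ t) '' {t : List A | t.length ≤ s.length} := by
    intro z hz
    by_cases h : RadixLt z (p ++ s)
    · left; exact ⟨hz.1, h⟩
    · right
      have h2 := hz.2
      unfold RadixLt at h h2
      simp only [List.length_append] at h h2
      have hlen : z.length = p.length + s.length := by
        rcases h2 with h2 | h2
        · by_contra hc
          exact h (Or.inl (by omega))
        · omega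
      have h3 : List.Lex (· < ·) z (p ++ s') := by
        rcases h2 with h2 | h2
        · omega
        · exact h2.2
      obtain ⟨t, ht⟩ := between p s s' z (fun hc => h (Or.inr ⟨hlen, hc⟩)) h3
        (by rw [List.length_append]; exact hlen)
      refine ⟨t, ?_, ht.symm⟩
      rw [ht, List.length_append] at hlen
      show t.length ≤ s.length
      omega
  have hf : {t : List A | t.length ≤ s.length}.Finite := List.finite_length_le A _
  calc val L (p ++ s') ≤ _ := Set.ncard_le_ncard hsub ((below_fin L _).union (hf.image _))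
    _ ≤ _ := Set.ncard_union_le _ _
    _ ≤ _ := Nat.add_le_add_left (Set.ncard_image_le hf) _

end radix

section dfa
variable {A σ : Type} [Fintype A] [DecidableEq σ] (M : DFA A σ)

/-- Accepted words of length at most `n` whose run from `q` stays in `S`. -/
def W (q : σ) (S : Finset σ) (n : ℕ) : Set (List A) :=
  {w | w.length ≤ n ∧ M.evalFrom q w ∈ M.accept ∧ ∀ u v, w = u ++ v → M.evalFrom q u ∈ S}

omit [DecidableEq σ] in
lemma W_fin (q : σ) (S : Finset σ) (n : ℕ) : (W M q S n).Finite :=
  (List.finite_length_le A n).subset fun _ hu => hu.1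

omit [Fintype A] [DecidableEq σ] in
lemma last_visit (q : σ) (w : List A) : ∃ c r, w = c ++ r ∧ M.evalFrom q c = q ∧
    ∀ u v, r = u ++ v → u ≠ [] → M.evalFrom q u ≠ q := by
  induction h : w.length using Nat.strong_induction_on generalizing w with
  | _ n ih =>
    by_cases hc : ∀ u v, w = u ++ v → u ≠ [] → M.evalFrom q u ≠ q
    · exact ⟨[], w, rfl, rfl, hc⟩
    · push Not at hc
      obtain ⟨u, v, h1, h2, h3⟩ := hc
      have : v.length < n := by
        rw [← h, h1, List.length_append]
        have := List.length_pos_iff.mpr h2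
        omega
      obtain ⟨c, r, e1, e2, e3⟩ := ih _ this v rfl
      refine ⟨u ++ c, r, by rw [h1, e1, List.append_assoc], ?_, e3⟩
      rw [DFA.evalFrom_of_append, h3, e2]

lemma W_card
    (huniq : ∀ x c c' y, M.evalFrom (M.eval x) c = M.eval x → M.evalFrom (M.eval x) c' = M.eval x →
      c.length = c'.length → M.evalFrom (M.eval x) y ∈ M.accept → c = c') (n : ℕ) :
    ∀ (k : ℕ) (S : Finset σ), S.card = k → ∀ x,
      (W M (M.eval x) S n).ncard ≤ ((n + 1) * (Fintype.card A + 1)) ^ k := by
  intro k
  induction k with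
  | zero =>
    intro S hS x
    rw [Finset.card_eq_zero] at hS
    have : W M (M.eval x) S n = ∅ := by
      ext w
      simp only [Set.mem_empty_iff_false, iff_false]
      intro hw
      have := hw.2.2 [] w rfl
      simp [hS] at this
    simp [this]
  | succ k ih =>
    intro S hS x
    classical
    set q := M.eval x with hq
    rcases (W M q S n).eq_empty_or_nonempty with he | ⟨y, hy⟩
    · simp [he]
    have hqS : q ∈ S := hy.2.2 [] y rfl
    set Cyc : Set (List A) := {c | c.length ≤ n ∧ M.evalFrom q c = q} with hCyc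
    have hCf : Cyc.Finite := (List.finite_length_le A n).subset fun _ hu => hu.1
    have hCc : Cyc.ncard ≤ n + 1 := by
      have : Cyc.ncard ≤ (Set.Iio (n + 1)).ncard := by
        apply Set.ncard_le_ncard_of_injOn List.length _ _ (Set.finite_Iio _)
        · intro c hc
          exact Nat.lt_succ_of_le hc.1
        · intro c hc c' hc' h
          exact huniq x c c' y hc.2 hc'.2 h hy.2.1
      rwa [Set.ncard_Iio_nat] at this
    set R : Set (List A) := {[]} ∪ ⋃ a : A, (fun w => a :: w) '' W M (M.step q a) (S.erase q) n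
      with hR
    have hRf : R.Finite := (Set.finite_singleton _).union
      (Set.finite_iUnion fun a => (W_fin M _ _ _).image _)
    set m := ((n + 1) * (Fintype.card A + 1)) ^ k with hm
    have hm1 : 1 ≤ m := Nat.one_le_iff_ne_zero.mpr (by positivity)
    have hRc : R.ncard ≤ (Fintype.card A + 1) * m := by
      have h1 : (⋃ a : A, (fun w => a :: w) '' W M (M.step q a) (S.erase q) n).ncard ≤
          Fintype.card A * m := by
        refine (Set.ncard_iUnion_le_of_fintype _).trans ?_
        refine (Finset.sum_le_card_nsmul _ _ m ?_).trans (by simp)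
        intro a _
        refine (Set.ncard_image_le (W_fin M _ _ _)).trans ?_
        have := ih (S.erase q) (by rw [Finset.card_erase_of_mem hqS, hS]; rfl) (x ++ [a])
        rwa [DFA.eval_append_singleton] at this
      have h2 := Set.ncard_union_le ({[]} : Set (List A))
        (⋃ a : A, (fun w => a :: w) '' W M (M.step q a) (S.erase q) n)
      rw [Set.ncard_singleton] at h2
      nlinarith
    have hsub : W M q S n ⊆ (fun pr : List A × List A => pr.1 ++ pr.2) '' (Cyc ×ˢ R) := by
      intro w hw
      obtain ⟨c, r, e1, e2, e3⟩ := last_visit M q w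
      have hl := hw.1
      rw [e1, List.length_append] at hl
      refine ⟨(c, r), ⟨⟨by show c.length ≤ n; omega, e2⟩, ?_⟩, e1.symm⟩
      cases r with
      | nil => left; rfl
      | cons a r =>
        right
        refine Set.mem_iUnion.mpr ⟨a, r, ⟨?_, ?_, ?_⟩, rfl⟩
        · simp at hl; omega
        · have := hw.2.1
          rwa [e1, DFA.evalFrom_of_append, e2] at this
        · intro u v huv
          rw [Finset.mem_erase]
          constructor
          · exact e3 (a :: u) v (by rw [huv]; rfl) (by simp)
          · have := hw.2.2 (c ++ a :: u) v (by rw [e1, huv]; simp)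
            rwa [DFA.evalFrom_of_append, e2] at this
    calc (W M q S n).ncard ≤ _ := Set.ncard_le_ncard hsub ((hCf.prod hRf).image _)
      _ ≤ (Cyc ×ˢ R).ncard := Set.ncard_image_le (hCf.prod hRf)
      _ = Cyc.ncard * R.ncard := Set.ncard_prod
      _ ≤ (n + 1) * ((Fintype.card A + 1) * m) := Nat.mul_le_mul hCc hRc
      _ = _ := by rw [hm]; ring

end dfa

section poly
open Polynomial

lemma poly_gap (P : ℚ[X]) (hP : ∀ n : ℕ, ∃ m : ℕ, P.eval (n : ℚ) = m) (hd : 2 ≤ P.natDegree)
    (B : ℝ) : ∃ n0 : ℕ, ∀ a b : ℕ, n0 ≤ a → a < b →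
      B < ((P.eval (b : ℚ) : ℚ) : ℝ) - ((P.eval (a : ℚ) : ℚ) : ℝ) := by
  set Q : ℝ[X] := P.map (algebraMap ℚ ℝ) with hQ
  have hev : ∀ n : ℕ, Q.eval (n : ℝ) = ((P.eval (n : ℚ) : ℚ) : ℝ) := by
    intro n
    rw [hQ, eval_map_algebraMap]
    have := aeval_algebraMap_apply ℝ (n : ℚ) P
    simpa using this
  have hQd : Q.natDegree = P.natDegree := natDegree_map _
  have hQ0 : 0 < Q.degree := natDegree_pos_iff_degree_pos.mp (by omega)
  have hlc : 0 ≤ Q.leadingCoeff := by
    by_contra hc
    have h1 := Q.tendsto_atBot_of_leadingCoeff_nonpos hQ0 (not_le.mp hc).le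
    have h2 := (h1.comp tendsto_natCast_atTop_atTop).eventually (eventually_lt_atBot 0)
    obtain ⟨n, hn⟩ := h2.exists
    obtain ⟨m, hm⟩ := hP n
    simp only [Function.comp] at hn
    rw [hev, hm] at hn
    simp at hn
    exact absurd hn (not_lt.mpr (Nat.cast_nonneg m))
  have hD : (derivative Q).natDegree = Q.natDegree - 1 := by simp [natDegree_derivative]
  have hD0 : 0 < (derivative Q).degree := natDegree_pos_iff_degree_pos.mp (by omega)
  have hDl : 0 ≤ (derivative Q).leadingCoeff := by
    rw [leadingCoeff, hD, coeff_derivative]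
    have : Q.natDegree - 1 + 1 = Q.natDegree := by omega
    rw [this]
    exact mul_nonneg hlc (by positivity)
  have h1 := ((derivative Q).tendsto_atTop_of_leadingCoeff_nonneg hD0 hDl).eventually
    (eventually_gt_atTop (max B 0))
  obtain ⟨x0, hx0⟩ := eventually_atTop.mp h1
  obtain ⟨n0, hn0⟩ := exists_nat_ge x0
  refine ⟨n0, fun a b ha hab => ?_⟩
  have hab' : (a : ℝ) < b := by exact_mod_cast hab
  obtain ⟨ξ, hξ, h⟩ := exists_hasDerivAt_eq_slope (fun x => Q.eval x) (fun x => (derivative Q).eval x)
    hab' Q.continuous.continuousOn (fun x _ => Q.hasDerivAt x)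
  have ha' : (n0 : ℝ) ≤ a := by exact_mod_cast ha
  have h2 := hx0 ξ (by linarith [hξ.1])
  have h3 : (1 : ℝ) ≤ b - a := by
    have : (a : ℝ) + 1 ≤ b := by exact_mod_cast hab
    linarith
  rw [← hev, ← hev]
  rw [eq_div_iff (by linarith)] at h
  rw [← h]
  have h4 := le_max_left B 0
  have h5 := le_max_right B 0
  nlinarith

lemma poly_up (P : ℚ[X]) : ∃ D : ℕ, ∀ n : ℕ, P.eval (n : ℚ) ≤ D * (n + 1) ^ P.natDegree := by
  obtain ⟨D, hD⟩ := exists_nat_ge (∑ i ∈ Finset.range (P.natDegree + 1), |P.coeff i|)
  refine ⟨D, fun n => ?_⟩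
  rw [eval_eq_sum_range]
  calc _ ≤ ∑ i ∈ Finset.range (P.natDegree + 1), |P.coeff i| * ((n : ℚ) + 1) ^ P.natDegree := by
        apply Finset.sum_le_sum
        intro i hi
        have hi' : i ≤ P.natDegree := Nat.lt_succ_iff.mp (Finset.mem_range.mp hi)
        have h1 : (n : ℚ) ^ i ≤ ((n : ℚ) + 1) ^ P.natDegree :=
          (pow_le_pow_left₀ (by positivity) (by linarith) i).trans
            (pow_le_pow_right₀ (by linarith [Nat.cast_nonneg (α := ℚ) n]) hi')
        calc _ ≤ |P.coeff i| * (n : ℚ) ^ i :=
              mul_le_mul_of_nonneg_right (le_abs_self _) (by positivity)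
          _ ≤ _ := mul_le_mul_of_nonneg_left h1 (abs_nonneg _)
    _ = _ := by rw [← Finset.sum_mul]
    _ ≤ _ := mul_le_mul_of_nonneg_right hD (by positivity)

end poly

lemma cyc_pow {A σ : Type} (M : DFA A σ) (q : σ) (c : List A) (h : M.evalFrom q c = q) (r : ℕ) :
    M.evalFrom q (List.replicate r c).flatten = q := by
  induction r with
  | zero => rfl
  | succ r ih => rw [List.replicate_succ, List.flatten_cons, DFA.evalFrom_of_append, h, ih]

theorem result {A : Type} [Fintype A] [LinearOrder A] (L : Language A) (P : Polynomial ℚ)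
    (hP : ∀ n : ℕ, ∃ m : ℕ, P.eval (n : ℚ) = m) (hd : 2 ≤ P.natDegree)
    (hrec : (rep L {m : ℕ | ∃ n : ℕ, P.eval (n : ℚ) = m}).IsRegular) :
    ∃ k : ℕ, (fun n : ℕ => (Set.ncard {w : List A | w ∈ L ∧ w.length = n} : ℝ)) =O[atTop]
      fun n : ℕ => (n : ℝ) ^ k := by
  classical
  obtain ⟨σ, hσ, M, hM⟩ := hrec
  choose f hf using hP
  have hK : ∀ w, M.eval w ∈ M.accept ↔ w ∈ L ∧ ∃ n, f n = val L w := by
    intro w
    rw [← DFA.mem_accepts, hM]
    refine and_congr Iff.rfl (exists_congr fun n => ?_)
    rw [hf n]
    exact Nat.cast_inj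
  have hgap : ∀ B : ℕ, ∃ n0 : ℕ, ∀ a b : ℕ, n0 ≤ a → a < b → f a + B < f b := by
    intro B
    obtain ⟨n0, h⟩ := poly_gap P (fun n => ⟨f n, hf n⟩) hd B
    refine ⟨n0, fun a b ha hab => ?_⟩
    have := h a b ha hab
    rw [hf, hf] at this
    push_cast at this
    have h2 : ((f a + B : ℕ) : ℝ) < (f b : ℝ) := by push_cast; linarith
    exact_mod_cast h2
  have huniq : ∀ x c c' y, M.evalFrom (M.eval x) c = M.eval x →
      M.evalFrom (M.eval x) c' = M.eval x →
      c.length = c'.length → M.evalFrom (M.eval x) y ∈ M.accept → c = c' := by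
    intro x c c' y hc hc' hl hy
    by_contra hne
    have hc0 : 0 < c.length := by
      rcases Nat.eq_zero_or_pos c.length with h | h
      · exfalso
        apply hne
        have h' : c'.length = 0 := by omega
        rw [List.length_eq_zero_iff.mp h, List.length_eq_zero_iff.mp h']
      · exact h
    set B := Set.ncard {t : List A | t.length ≤ (c ++ y).length} with hB
    obtain ⟨n0, hn0⟩ := hgap B
    set p : ℕ → List A := fun r => x ++ (List.replicate r c).flatten with hp
    have hpe : ∀ r, M.eval (p r) = M.eval x := by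
      intro r
      show M.evalFrom M.start (x ++ _) = _
      rw [DFA.evalFrom_of_append]
      exact cyc_pow M _ c hc r
    have hin : ∀ r d, M.evalFrom (M.eval x) d = M.eval x → M.eval (p r ++ (d ++ y)) ∈ M.accept := by
      intro r d h
      show M.evalFrom M.start _ ∈ _
      rw [DFA.evalFrom_of_append, DFA.evalFrom_of_append]
      have := hpe r
      unfold DFA.eval at this h hy
      rw [this, h]
      exact hy
    have hinj : Function.Injective fun r => val L (p r ++ (c ++ y)) := by
      intro r r' h
      have := val_inj ((hK _).mp (hin r c hc)).1 ((hK _).mp (hin r' c hc)).1 h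
      have := congrArg List.length this
      simp only [hp, List.length_append, List.length_flatten, List.map_replicate,
        List.sum_replicate, smul_eq_mul] at this
      exact Nat.eq_of_mul_eq_mul_right hc0 (by omega)
    obtain ⟨r, hr⟩ : ∃ r, (Finset.range n0).sup f + B < val L (p r ++ (c ++ y)) := by
      by_contra hcon
      push Not at hcon
      exact Set.infinite_range_of_injective hinj
        ((Set.finite_Iic _).subset (by rintro _ ⟨r, rfl⟩; exact hcon r))
    obtain ⟨hu, a, ha⟩ := (hK _).mp (hin r c hc)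
    obtain ⟨hv, b, hb⟩ := (hK _).mp (hin r c' hc')
    have g1 := val_gap L (p r) (c ++ y) (c' ++ y) (by simp [hl])
    have g2 := val_gap L (p r) (c' ++ y) (c ++ y) (by simp [hl])
    have e : (c' ++ y).length = (c ++ y).length := by simp [hl]
    rw [e] at g2
    rw [← hB, ← ha, ← hb] at g1 g2
    rw [← ha] at hr
    have hsup : ∀ i, i < n0 → f i ≤ (Finset.range n0).sup f := fun i hi =>
      Finset.le_sup (f := f) (Finset.mem_range.mpr hi)
    have ha0 : n0 ≤ a := by
      by_contra h
      have := hsup a (by omega)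
      omega
    have hb0 : n0 ≤ b := by
      by_contra h
      have := hsup b (by omega)
      omega
    rcases lt_trichotomy a b with h | h | h
    · have := hn0 a b ha0 h; omega
    · have := val_inj hu hv (by rw [← ha, ← hb, h])
      exact hne (List.append_cancel_right (List.append_cancel_left this))
    · have := hn0 b a hb0 h; omega
  obtain ⟨n0, hn0⟩ := hgap 0
  obtain ⟨D, hD⟩ := poly_up P
  have hD' : ∀ n, f n ≤ D * (n + 1) ^ P.natDegree := by
    intro n
    have := hD n
    rw [hf] at this
    exact_mod_cast this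
  set k := Fintype.card σ
  set d := P.natDegree
  set α := Fintype.card A + 1
  have hbound : ∀ n (w : List A), w ∈ L → w.length = n →
      val L w < D * (n0 + ((n + 1) * α) ^ k + 1) ^ d + 1 := by
    intro n w hw hl
    by_contra hcon
    set T := ((n + 1) * α) ^ k with hT
    have h1 : ∀ i, i < T + 1 → ∃ u ∈ L, u.length ≤ w.length ∧ val L u = f (n0 + i) := by
      intro i hi
      apply val_surj
      have := hD' (n0 + i)
      have h2 : D * (n0 + i + 1) ^ d ≤ D * (n0 + T + 1) ^ d :=
        Nat.mul_le_mul_left _ (Nat.pow_le_pow_left (by omega) _)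
      omega
    choose! g hg using h1
    have h2 : (Set.Iio (T + 1)).ncard ≤ (W M (M.eval []) Finset.univ n).ncard := by
      apply Set.ncard_le_ncard_of_injOn g _ _ (W_fin M _ _ _)
      · intro i hi
        obtain ⟨e1, e2, e3⟩ := hg i hi
        refine ⟨by omega, (hK _).mpr ⟨e1, _, e3.symm⟩, fun _ _ _ => Finset.mem_univ _⟩
      · intro i hi j hj h
        have e1 := (hg i hi).2.2
        have e2 := (hg j hj).2.2
        rw [h, e2] at e1
        rcases lt_trichotomy i j with h | h | h
        · have := hn0 (n0 + i) (n0 + j) (by omega) (by omega); omega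
        · exact h
        · have := hn0 (n0 + j) (n0 + i) (by omega) (by omega); omega
    have h3 := W_card M huniq n k Finset.univ rfl []
    rw [Set.ncard_Iio_nat] at h2
    exact absurd (h2.trans h3) (Nat.not_succ_le_self T)
  have hcount : ∀ n, Set.ncard {w : List A | w ∈ L ∧ w.length = n} ≤
      D * (n0 + ((n + 1) * α) ^ k + 1) ^ d + 1 := by
    intro n
    rw [← Set.ncard_Iio_nat (D * (n0 + ((n + 1) * α) ^ k + 1) ^ d + 1)]
    apply Set.ncard_le_ncard_of_injOn (val L) _ _ (Set.finite_Iio _)
    · intro w hw
      exact hbound n w hw.1 hw.2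
    · intro u hu w hw h
      exact val_inj hu.1 hw.1 h
  refine ⟨k * d, Asymptotics.IsBigO.of_bound ((D * (n0 + (2 * α) ^ k + 1) ^ d + 1 : ℕ) : ℝ) ?_⟩
  filter_upwards [eventually_ge_atTop 1] with n hn
  rw [Real.norm_natCast, ← Nat.cast_pow, Real.norm_natCast, ← Nat.cast_mul, Nat.cast_le]
  refine (hcount n).trans ?_
  have h1 : 1 ≤ n ^ k := Nat.one_le_pow _ _ hn
  have h2 : ((n + 1) * α) ^ k ≤ (2 * α) ^ k * n ^ k := by
    rw [← mul_pow]
    apply Nat.pow_le_pow_left
    nlinarith
  have h3 : n0 + ((n + 1) * α) ^ k + 1 ≤ (n0 + (2 * α) ^ k + 1) * n ^ k := by nlinarith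
  have h4 : (n0 + ((n + 1) * α) ^ k + 1) ^ d ≤ (n0 + (2 * α) ^ k + 1) ^ d * n ^ (k * d) := by
    rw [pow_mul, ← mul_pow]
    exact Nat.pow_le_pow_left h3 _
  have h5 : 1 ≤ n ^ (k * d) := Nat.one_le_pow _ _ hn
  have h6 := Nat.mul_le_mul_left D h4
  nlinarith

end Pool.Agent.Results.MP_8c22a7_lc.PolyGrowth
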